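import Pool.Agent.V1176.UC.Crit

/-!
# A universal BPBp-ASE domain which is not uniformly convex

For the real and for the complex scalars there is a space `X` of dimension three whose unit sphere
contains a segment and which is a universal BPBp-ASE domain. The unit ball is the intersection of
the slab `|z| ≤ 1` and a sequence of ellipsoids converging to this slab; the ellipsoids touch the
ball at points which are dense around the segment and, relative to the elongation of the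
ellipsoids, extremely close to the slab.
-/

set_option autoImplicit false

namespace Pool.Agent.Results.MP_78fc4b_an.NotUniformlyConvex

open Filter Topology

universe v

section Defs

variable (𝕜 : Type) [RCLike 𝕜]
variable {X : Type} [NormedAddCommGroup X] [NormedSpace 𝕜 X]
variable {Y : Type v} [NormedAddCommGroup Y] [NormedSpace 𝕜 Y]

/-- `T` is absolutely strongly exposing. -/
def IsASE (T : X →L[𝕜] Y) : Prop :=
  ∃ x₀ : X, ‖x₀‖ = 1 ∧ ∀ x : ℕ → X, (∀ n, ‖x n‖ ≤ 1) →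
    Tendsto (fun n => ‖T (x n)‖) atTop (𝓝 ‖T‖) →
    ∃ σ : ℕ → ℕ, StrictMono σ ∧ ∃ c : 𝕜, ‖c‖ = 1 ∧
      Tendsto (fun n => x (σ n)) atTop (𝓝 (c • x₀))

variable (X Y)

/-- The pair `(X, Y)` has the BPBp-ASE. -/
def BPBpASE : Prop :=
  ∀ ε : ℝ, 0 < ε → ∃ η : ℝ, 0 < η ∧ η < ε ∧
    ∀ T : X →L[𝕜] Y, ‖T‖ = 1 → ∀ x : X, ‖x‖ = 1 → 1 - η < ‖T x‖ →
      ∃ (S : X →L[𝕜] Y) (x₀ : X), IsASE 𝕜 S ∧ ‖x₀‖ = 1 ∧ ‖S‖ = 1 ∧ ‖S x₀‖ = 1 ∧
        ‖S - T‖ < ε ∧ ‖x - x₀‖ < ε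

end Defs

/-- `X` is a universal BPBp-ASE domain. -/
def IsUniversalASEDomain (𝕜 : Type) [RCLike 𝕜] (X : Type) [NormedAddCommGroup X]
    [NormedSpace 𝕜 X] : Prop :=
  ∀ (Z : Type v) [NormedAddCommGroup Z] [NormedSpace 𝕜 Z] [CompleteSpace Z], BPBpASE 𝕜 X Z

/-- `X` is uniformly convex. -/
def IsUniformlyConvex (X : Type) [NormedAddCommGroup X] : Prop :=
  ∀ ε : ℝ, 0 < ε → ∃ δ : ℝ, 0 < δ ∧ δ < 1 ∧ ∀ x₁ x₂ : X, ‖x₁‖ = 1 → ‖x₂‖ = 1 →
    1 - δ < ‖x₁ + x₂‖ / 2 → ‖x₁ - x₂‖ < ε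

/-- There is a Banach space over `𝕜 = ℝ` or `ℂ`, of dimension three, which is a universal BPBp-ASE
domain and is not uniformly convex: its unit sphere contains a segment. -/
theorem result (𝕜 : Type) [RCLike 𝕜] :
    ∃ (X : Type) (_ : NormedAddCommGroup X) (_ : NormedSpace 𝕜 X),
      Module.finrank 𝕜 X = 3 ∧ CompleteSpace X ∧ IsUniversalASEDomain.{v} 𝕜 X ∧
      ¬ IsUniformlyConvex X ∧
      ∃ x y : X, x ≠ y ∧ ∀ t : ℝ, 0 ≤ t → t ≤ 1 →
        ‖(((1 - t : ℝ) : 𝕜)) • x + ((t : ℝ) : 𝕜) • y‖ = 1 := by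
  refine ⟨V1176.UC.XX 𝕜, inferInstance, inferInstance, V1176.UC.finrank_XX,
    FiniteDimensional.complete 𝕜 _, fun Z _ _ _ => V1176.UC.universal, ?_, ?_⟩
  · intro h
    obtain ⟨δ, hδ0, -, hδ⟩ := h (1 / 2) (by norm_num)
    have h1 := hδ _ _ (V1176.UC.norm_seg (𝕜 := 𝕜) (s := 1 / 2) (by norm_num) (by norm_num))
      (V1176.UC.norm_seg (𝕜 := 𝕜) (s := 0) (by norm_num) (by norm_num)) (by
        rw [V1176.UC.add_seg, norm_smul,
          V1176.UC.norm_seg (𝕜 := 𝕜) (s := 1 / 4) (by norm_num) (by norm_num)]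
        simp
        linarith)
    have h2 := V1176.UC.dist_seg (𝕜 := 𝕜)
    linarith
  · refine ⟨V1176.UC.el (![((0 : ℝ) : 𝕜), 0, 1]), V1176.UC.el (![((1 / 2 : ℝ) : 𝕜), 0, 1]), ?_, ?_⟩
    · intro h
      have h2 := V1176.UC.dist_seg (𝕜 := 𝕜)
      rw [← h, sub_self, norm_zero] at h2
      linarith
    · intro t h0 h1
      rw [← V1176.UC.el_smul, ← V1176.UC.el_smul, ← V1176.UC.el_add]
      have h3 : (((1 - t : ℝ) : 𝕜)) • (![((0 : ℝ) : 𝕜), 0, 1] : Fin 3 → 𝕜) +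
          ((t : ℝ) : 𝕜) • (![((1 / 2 : ℝ) : 𝕜), 0, 1] : Fin 3 → 𝕜) =
          ![((t / 2 : ℝ) : 𝕜), 0, 1] := by
        ext i
        fin_cases i
        · show ((1 - t : ℝ) : 𝕜) * ((0 : ℝ) : 𝕜) + ((t : ℝ) : 𝕜) * ((1 / 2 : ℝ) : 𝕜) =
            ((t / 2 : ℝ) : 𝕜)
          rw [← RCLike.ofReal_mul, ← RCLike.ofReal_mul, ← RCLike.ofReal_add]
          congr 1
          ring
        · show ((1 - t : ℝ) : 𝕜) * 0 + ((t : ℝ) : 𝕜) * 0 = 0
          ring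
        · show ((1 - t : ℝ) : 𝕜) * 1 + ((t : ℝ) : 𝕜) * 1 = 1
          push_cast
          ring
      rw [h3]
      exact V1176.UC.norm_seg (by linarith) (by linarith)

end Pool.Agent.Results.MP_78fc4b_an.NotUniformlyConvex
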